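import Pool.Agent.H629.CG.Stm

/-!
# Project CG: positive moments on the half interval (`S_POS`)
-/

set_option autoImplicit false

namespace Pool.Agent.H278.CG.POS

open MeasureTheory ProbabilityTheory Filter Topology Set
open scoped ENNReal NNReal
open Pool.Agent.H629.CG

lemma meas_mas {Ω : Type} [MeasurableSpace Ω] (A : Set ℝ) (X : ℝ → Ω → ℝ)
    (hX : Measurable (Function.uncurry X)) : Measurable fun ω => mas A X ω := by
  unfold mas
  have h : Measurable fun p : ℝ × Ω => ENNReal.ofReal (Real.exp (X p.1 p.2)) :=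
    ENNReal.measurable_ofReal.comp (Real.measurable_exp.comp hX)
  exact h.lintegral_prod_left'

lemma vol_Hf : volume Hf = ENNReal.ofReal (1 / 2) := by
  unfold Hf
  rw [Real.volume_Ico, sub_zero]

lemma meas_Hf : MeasurableSet Hf := measurableSet_Ico

lemma vol_pos : 0 < volume Hf := by
  rw [vol_Hf, ENNReal.ofReal_pos]
  norm_num

lemma vol_ne : volume Hf ≠ ∞ := by
  rw [vol_Hf]
  exact ENNReal.ofReal_ne_top

lemma split (hG : S_GEO) {Ω : Type} [MeasurableSpace Ω] (P : Measure Ω) (X : ℝ → Ω → ℝ)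
    (hX : Measurable (Function.uncurry X)) (m : ℕ) (hm : 0 < m) (p : ℝ) (hp : 1 ≤ p) :
    mom P Hf X p ≤ 2 ^ (p - 1) * (mom P (evn m 0) X p + mom P (evn m 1) X p) := by
  obtain ⟨h1, h2, h3, -, -⟩ := hG m hm
  have h4 : ∀ ω, mas Hf X ω = mas (evn m 0) X ω + mas (evn m 1) X ω := by
    intro ω
    unfold mas
    rw [← h2, lintegral_union (h1 1 le_rfl).1 h3]
  have hm0 : Measurable fun ω => mas (evn m 0) X ω ^ p := (meas_mas _ X hX).pow_const p
  have hm1 : Measurable fun ω => mas (evn m 1) X ω ^ p := (meas_mas _ X hX).pow_const p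
  unfold mom
  calc ∫⁻ ω, mas Hf X ω ^ p ∂P
      ≤ ∫⁻ ω, 2 ^ (p - 1) * (mas (evn m 0) X ω ^ p + mas (evn m 1) X ω ^ p) ∂P := by
        refine lintegral_mono fun ω => ?_
        rw [h4]
        exact ENNReal.rpow_add_le_mul_rpow_add_rpow _ _ hp
    _ = _ := by
        have hm01 : Measurable fun ω => mas (evn m 0) X ω ^ p + mas (evn m 1) X ω ^ p :=
          hm0.add hm1
        rw [lintegral_const_mul _ hm01, lintegral_add_left hm0]

/-- the choice of the number of blocks -/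
lemma choose_m (μ δ C p : ℝ) (hp : 1 < p) (hκ : μ * (1 + δ) * p / 2 < 1) :
    ∃ m : ℕ, 0 < m ∧ (2 : ℝ) ^ (p - 1) * 2 *
      (Real.exp ((p ^ 2 - p) / 2 * (μ * (1 + δ) * Real.log (2 * m) + C)) *
        (2 * (m : ℝ)) ^ (-p)) * (2 ^ p * m) ≤ 1 / 2 := by
  set y : ℝ := (p - 1) * (1 - μ * (1 + δ) * p / 2) with hy
  have hy0 : 0 < y := mul_pos (by linarith) (by linarith)
  set K : ℝ := (2 : ℝ) ^ (p - 1) * 2 * Real.exp ((p ^ 2 - p) / 2 * C) * 2 ^ p / 2 with hK
  have h1 : Tendsto (fun m : ℕ => K * (2 * (m : ℝ)) ^ (-y)) atTop (𝓝 (K * 0)) := by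
    refine Tendsto.const_mul K ?_
    refine (tendsto_rpow_neg_atTop hy0).comp ?_
    exact tendsto_natCast_atTop_atTop.const_mul_atTop (by norm_num)
  rw [mul_zero] at h1
  have h2 := (h1.eventually (ge_mem_nhds (show (0 : ℝ) < 1 / 2 by norm_num))).and
    (eventually_gt_atTop 0)
  obtain ⟨m, hm1, hm0⟩ := h2.exists
  refine ⟨m, hm0, ?_⟩
  have hm' : (0 : ℝ) < 2 * m := by positivity
  have h3 : Real.exp ((p ^ 2 - p) / 2 * (μ * (1 + δ) * Real.log (2 * m) + C)) =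
      Real.exp ((p ^ 2 - p) / 2 * C) * (2 * (m : ℝ)) ^ ((p ^ 2 - p) / 2 * (μ * (1 + δ))) := by
    rw [Real.rpow_def_of_pos hm', ← Real.exp_add]
    congr 1
    ring
  have h4 : (2 * (m : ℝ)) ^ (-y) = (2 * (m : ℝ)) ^ ((p ^ 2 - p) / 2 * (μ * (1 + δ))) *
      (2 * (m : ℝ)) ^ (-p) * (2 * m) := by
    rw [← Real.rpow_add hm', ← Real.rpow_add_one hm'.ne']
    congr 1
    rw [hy]
    ring
  calc (2 : ℝ) ^ (p - 1) * 2 *
      (Real.exp ((p ^ 2 - p) / 2 * (μ * (1 + δ) * Real.log (2 * m) + C)) *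
        (2 * (m : ℝ)) ^ (-p)) * (2 ^ p * m) = K * (2 * (m : ℝ)) ^ (-y) := by
        rw [h3, h4, hK]
        ring
    _ ≤ 1 / 2 := hm1

theorem t_POS : S_JEN → S_GEO → S_SUMP → S_REC → S_R2 → S_CMP → S_POS := by
  intro hJEN hGEO hSUMP hREC hR2 hCMP μ r ε₀ Ω _ P X hμ hμ2 hr hε0 hε1 hF
  have hbase : ∀ p : ℝ, 0 < p → p ≤ 1 →
      ∃ C : ℝ≥0∞, C ≠ ∞ ∧ ∀ ε ∈ Ioo 0 ε₀, mom (P ε) Hf (X ε) p ≤ C := by
    intro p hp0 hp1
    refine ⟨volume Hf ^ p, ENNReal.rpow_ne_top_of_nonneg hp0.le vol_ne, fun ε hε => ?_⟩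
    have := hF.prob ε hε
    exact (hJEN (Ω ε) (P ε) Hf (X ε) _ meas_Hf vol_pos vol_ne (hF.lnf ε hε) p).2.1 hp0.le hp1
  have key : ∀ (n : ℕ) (p : ℝ), 0 < p → p < 2 / μ → p ≤ 2 ^ n →
      ∃ C : ℝ≥0∞, C ≠ ∞ ∧ ∀ ε ∈ Ioo 0 ε₀, mom (P ε) Hf (X ε) p ≤ C := by
    intro n
    induction n with
    | zero =>
      intro p hp0 _ hp1
      exact hbase p hp0 (by simpa using hp1)
    | succ n ih =>
      intro p hp0 hpμ hpn
      rcases le_or_gt p 1 with hp1 | hp1
      · exact hbase p hp0 hp1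
      have hpμ' : μ * p < 2 := by
        rw [lt_div_iff₀ hμ] at hpμ
        linarith
      obtain ⟨C1, hC1, hC1'⟩ := ih (p / 2) (by linarith) (by linarith) (by
        rw [pow_succ] at hpn
        linarith)
      -- the parameter δ
      obtain ⟨δ, hδ0, hδ⟩ : ∃ δ : ℝ, 0 < δ ∧ μ * (1 + δ) * p / 2 < 1 := by
        have hμp : 0 < μ * p := mul_pos hμ hp0
        refine ⟨(2 / (μ * p) - 1) / 2, ?_, ?_⟩
        · have : 1 < 2 / (μ * p) := by
            rw [lt_div_iff₀ hμp]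
            linarith
          linarith
        · have h1 : μ * (1 + (2 / (μ * p) - 1) / 2) * p / 2 = (μ * p + 2) / 4 := by
            field_simp
            ring
          rw [h1]
          linarith
      obtain ⟨C, hC0, hC⟩ := hCMP μ r hμ hr δ hδ0
      obtain ⟨m, hm0, hm⟩ := choose_m μ δ C p hp1 hδ
      have hm0' : (0 : ℝ) < m := by exact_mod_cast hm0
      have hm1' : (1 : ℝ) ≤ m := by exact_mod_cast hm0
      -- base range
      obtain ⟨V, hV⟩ := (hR2 r hr).2.2 (ε₀ / (2 * m)) (by positivity)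
      set C' : ℝ≥0∞ := volume Hf ^ p * ex ((p ^ 2 - p) / 2 * (μ * V)) with hC'
      have hC't : C' ≠ ∞ :=
        ENNReal.mul_ne_top (ENNReal.rpow_ne_top_of_nonneg hp0.le vol_ne) ENNReal.ofReal_ne_top
      -- the constants of the recursion
      set E : ℝ≥0∞ := ex ((p ^ 2 - p) / 2 * (μ * (1 + δ) * Real.log (2 * m) + C)) *
        ENNReal.ofReal (2 * m) ^ (-p) with hE
      have h2m : (0 : ℝ) < 2 * m := by positivity
      have hE2 : E = ENNReal.ofReal
          (Real.exp ((p ^ 2 - p) / 2 * (μ * (1 + δ) * Real.log (2 * m) + C)) *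
            (2 * (m : ℝ)) ^ (-p)) := by
        rw [hE, ENNReal.ofReal_rpow_of_pos h2m, ENNReal.ofReal_mul (Real.exp_pos _).le]
        rfl
      have hEt : E ≠ ∞ := by
        rw [hE2]
        exact ENNReal.ofReal_ne_top
      have h2t : ∀ y : ℝ, (2 : ℝ≥0∞) ^ y = ENNReal.ofReal (2 ^ y) := by
        intro y
        rw [← ENNReal.ofReal_rpow_of_pos (by norm_num)]
        norm_num
      have hcoef : (2 : ℝ≥0∞) ^ (p - 1) * 2 * E * (2 ^ p * m) ≤ 1 / 2 := by
        have h1 : (2 : ℝ≥0∞) ^ (p - 1) * 2 * E * (2 ^ p * m) = ENNReal.ofReal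
            ((2 : ℝ) ^ (p - 1) * 2 *
      (Real.exp ((p ^ 2 - p) / 2 * (μ * (1 + δ) * Real.log (2 * m) + C)) *
        (2 * (m : ℝ)) ^ (-p)) * (2 ^ p * m)) := by
          rw [ENNReal.ofReal_mul (by positivity), ENNReal.ofReal_mul (by positivity),
            ENNReal.ofReal_mul (by positivity), ENNReal.ofReal_mul (p := (2 : ℝ) ^ p) (by positivity),
            ← hE2, ← h2t, ← h2t, ENNReal.ofReal_natCast, ENNReal.ofReal_ofNat]
        rw [h1]
        calc _ ≤ ENNReal.ofReal (1 / 2) := ENNReal.ofReal_le_ofReal hm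
          _ = 1 / 2 := by
            rw [ENNReal.ofReal_div_of_pos (by norm_num)]
            norm_num
      set G : ℝ≥0∞ := (2 : ℝ≥0∞) ^ (p - 1) * 2 * E * ((m : ℝ≥0∞) ^ (2 * p + 2) * C1 ^ 2) with hG
      have hGt : G ≠ ∞ := by
        refine ENNReal.mul_ne_top (ENNReal.mul_ne_top (ENNReal.mul_ne_top ?_ (by norm_num)) hEt)
          (ENNReal.mul_ne_top ?_ ?_)
        · rw [h2t]
          exact ENNReal.ofReal_ne_top
        · exact ENNReal.rpow_ne_top_of_nonneg (by linarith) (ENNReal.natCast_ne_top m)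
        · exact ENNReal.pow_ne_top hC1
      have hstep : ∀ ε, 0 < ε → (2 * (m : ℝ)) * ε < ε₀ → mom (P ε) Hf (X ε) p ≤
          mom (P (2 * m * ε)) Hf (X (2 * m * ε)) p / 2 + G := by
        intro ε hε0' hε1'
        have hεlt : ε < ε₀ := by nlinarith
        have hεm : ε ∈ Ioo 0 ε₀ := ⟨hε0', hεlt⟩
        have hεm2 : 2 * (m : ℝ) * ε ∈ Ioo 0 ε₀ := ⟨by positivity, hε1'⟩
        have hprob2 := hF.prob _ hεm2
        have hblk : ∀ c, c ≤ 1 → mom (P ε) (evn m c) (X ε) p ≤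
            E * (2 ^ p * m * mom (P (2 * m * ε)) Hf (X (2 * m * ε)) p +
              (m : ℝ≥0∞) ^ (2 * p + 2) * C1 ^ 2) := by
          intro c hc
          refine (hC ε₀ Ω P X hε0 hε1 hF m hm0 ε hε0' hε1' c hc p (Or.inl hp1.le)).trans ?_
          refine mul_le_mul_right ?_ _
          refine (hSUMP (Ω (2 * m * ε)) (P (2 * m * ε)) (fun ω => mas Hf (X (2 * m * ε)) ω)
            (meas_mas _ _ (hF.lnf _ hεm2).meas) m hm0 p hp0).trans ?_
          refine add_le_add_right (mul_le_mul_right (pow_le_pow_left' ?_ 2) _) _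
          exact hC1' _ hεm2
        refine (split hGEO (P ε) (X ε) (hF.lnf ε hεm).meas m hm0 p hp1.le).trans ?_
        set T : ℝ≥0∞ := mom (P (2 * m * ε)) Hf (X (2 * m * ε)) p with hT
        calc 2 ^ (p - 1) * (mom (P ε) (evn m 0) (X ε) p + mom (P ε) (evn m 1) (X ε) p)
            ≤ 2 ^ (p - 1) * (E * (2 ^ p * m * T + (m : ℝ≥0∞) ^ (2 * p + 2) * C1 ^ 2) +
                E * (2 ^ p * m * T + (m : ℝ≥0∞) ^ (2 * p + 2) * C1 ^ 2)) :=
              mul_le_mul_right (add_le_add (hblk 0 (by norm_num)) (hblk 1 le_rfl)) _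
          _ = 2 ^ (p - 1) * 2 * E * (2 ^ p * m) * T + G := by
              rw [hG]
              ring
          _ ≤ 1 / 2 * T + G := add_le_add_left (mul_le_mul_left hcoef _) _
          _ = T / 2 + G := by
              rw [one_div, mul_comm, ← div_eq_mul_inv]
      refine ⟨2 * G + C', ENNReal.add_ne_top.2 ⟨ENNReal.mul_ne_top (by norm_num) hGt, hC't⟩, ?_⟩
      intro ε hε
      refine hREC (2 * m) ε₀ (by linarith) hε0 (fun ε => mom (P ε) Hf (X ε) p) G C' hstep ?_ ε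
        hε.1 hε.2
      intro ε hε0' hε1' hε2'
      have hεm : ε ∈ Ioo 0 ε₀ := ⟨hε0', hε1'⟩
      have hprob := hF.prob ε hεm
      refine (hJEN (Ω ε) (P ε) Hf (X ε) _ meas_Hf vol_pos vol_ne (hF.lnf ε hεm) p).1 (μ * V)
        ?_ (Or.inl hp1.le)
      intro t _
      refine mul_le_mul_of_nonneg_left ?_ hμ.le
      rw [sub_self, abs_zero]
      refine hV ε 0 ?_ (by linarith) le_rfl (by norm_num)
      rw [div_le_iff₀ h2m]
      linarith
  intro p hp0 hpμ
  obtain ⟨n, hn⟩ := pow_unbounded_of_one_lt p (show (1 : ℝ) < 2 by norm_num)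
  exact key n p hp0 hpμ hn.le

end Pool.Agent.H278.CG.POS
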